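import Pool.Agent.U213.TP.TwistMain

/-!
# Deligne's period conjecture for twists of abelian varieties: restrictions of scalars of elliptic curves
over `ℚ` from cubic, quartic and quintic fields

Let `A₀` be any elliptic curve over `ℚ` (complex multiplication is not assumed), `F` a number field, Galois
over `ℚ`, and `σ` a rational representation of `Gal(F/ℚ)` of degree `d`; `A = A₀ ⊗ σ` is an abelian
variety over `ℚ` of dimension `d`. For the permutation representation on the embeddings of a subfield `M` it
is the restriction of scalars of `A₀` from `M` to `ℚ`. For even characters `ψ` we prove (i) and (ii) of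
the problem (`Reciprocity`):

(1) if `ψ · tr σ` is a combination, with coefficients `1` and `-1`, of linear characters, of odd irreducible
two-dimensional characters and of products `tr ρ · tr ρ'` of two of these with `det ρ det ρ' = 1`, where the
L-values of the characters with coefficient `-1` are not zero;

(2) for every cubic field `M` which is not totally real and all even `ψ`: for the restriction of scalars
of `A₀` (`d = 3`) and for the abelian surface `A₀ ⊗ σ`, `σ` the two-dimensional representation of the
field `M` (`d = 2`);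

(3), (4) for quadratic `ψ` and the restriction of scalars from quartic fields `M` given by one, and from
quintic fields `M` given by two odd projective representations (by Tate's lifting theorem, which is not
used here, these are the fields with group `A₄`, `S₄` and `A₅` which are not totally real); for quartic
fields whose discriminant is not a square the value of the L-function of `A₀` twisted by `ψ` and by the
quadratic character of the discriminant is assumed not to be zero.

The published theorems on the twists of elliptic curves over `ℚ` (Manin, Shimura; Garrett, Harris–Kudla;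
Khare–Wintenberger) are the hypotheses `LinearTwists`, `RankinProducts` and `TripleProducts`.
-/

set_option autoImplicit false

open NumberField Filter Topology Pool.Agent.U213.EC Pool.Agent.U213.TP

namespace Pool.Agent.Results.MP_21281f_nt.RestrictionsOfScalars

theorem result (h₁ : LinearTwists) (h₂ : RankinProducts) (h₃ : TripleProducts)
    (F : Type) [Field F] [NumberField F] [IsGalois ℚ F] (D : Data F)
    (E : Type) [Field E] [NumberField E] (f : ℕ) (χ : (ZMod f)ˣ →* Eˣ) (ψ : (F ≃ₐ[ℚ] F) →* Eˣ)
    (hψ : EvenChar D f χ ψ) :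
    -- (1) the general criterion
    (∀ (d : ℕ) (σ : (F ≃ₐ[ℚ] F) →* Matrix (Fin d) (Fin d) ℚ) (I J : Type) (_ : Fintype I)
      (_ : Fintype J) (a : I → (F ≃ₐ[ℚ] F) → E) (b : J → (F ≃ₐ[ℚ] F) → E),
      (∀ i, Basic D (a i)) → (∀ j, Basic D (b j)) →
      (∀ j, ∃ τ : E →+* ℂ, NonzeroAtOne D (fun g => τ (b j g))) →
      (∀ g, ((ψ g : Eˣ) : E) * (((σ g).trace : ℚ) : E) + ∑ j, b j g = ∑ i, a i g) →
      Reciprocity D f χ ψ σ) ∧
    -- (2) cubic fields which are not totally real
    (∀ (M : IntermediateField ℚ F), ComplexCubic M →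
      Reciprocity D f χ ψ (permRep M ℚ) ∧
      ∀ σ : (F ≃ₐ[ℚ] F) →* Matrix (Fin 2) (Fin 2) ℚ, (∀ g, (σ g).trace = (fix M g : ℚ) - 1) →
        Reciprocity D f χ ψ σ) ∧
    -- (3) quartic fields and quadratic characters
    (ψ ^ 2 = 1 → ∀ (M : IntermediateField ℚ F), Module.finrank ℚ M = 4 →
      ∀ ρ : (F ≃ₐ[ℚ] F) →* Matrix (Fin 2) (Fin 2) E, OddRep D ρ → Cuts M ρ →
      (IsSquare (discr M) ∨ ∃ τ : E →+* ℂ,
        NonzeroAtOne D (fun g => τ ((ψ g : Eˣ) : E) * (sgn M g : ℂ))) →
      Reciprocity D f χ ψ (permRep M ℚ)) ∧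
    -- (4) quintic fields and quadratic characters
    (ψ ^ 2 = 1 → ∀ (M : IntermediateField ℚ F), Module.finrank ℚ M = 5 → IsSquare (discr M) →
      ∀ ρ ρ' : (F ≃ₐ[ℚ] F) →* Matrix (Fin 2) (Fin 2) E, OddRep D ρ → OddRep D ρ' → Cuts M ρ →
      Cuts M ρ' → (∀ g, (ρ g).det * (ρ' g).det = 1) → (∀ g, Triv M g → ρ g * ρ' g = 1) →
      (∀ g, Triv M (g ^ 5) → ¬ Triv M g →
        (ρ g).trace ^ 2 * (ρ' g).det ≠ (ρ' g).trace ^ 2 * (ρ g).det) →
      Reciprocity D f χ ψ (permRep M ℚ)) := by
  refine ⟨fun d σ I J _ _ a b ha hb hne hid => reciprocity h₁ h₂ h₃ hψ σ a b ha hb hne hid,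
    fun M hM => ⟨reciprocity_cubic h₁ h₂ h₃ hψ hM, fun σ hσ => ?_⟩,
    fun hq M hM ρ hρ hc hs => reciprocity_quartic h₁ h₂ h₃ hψ hq hM hρ hc hs,
    fun hq M hM hsq ρ ρ' hρ hρ' hc hc' hd htr hne =>
      reciprocity_quintic h₁ h₂ h₃ hψ hq hM hsq ρ ρ' hρ hρ' hc hc' hd htr hne⟩
  have hodd := odd_tw D (hM.oddRep D E) ψ (by rw [hψ.even, Units.val_one, one_pow])
  refine reciprocity h₁ h₂ h₃ hψ σ (I := Unit) (J := Empty)
    (fun _ g => (tw ψ (cubRep M E (hM.deg D)) g).trace) (fun j => j.elim)
    (fun _ => Or.inr (Or.inl ⟨_, hodd, fun g => rfl⟩)) (fun j => j.elim) (fun j => j.elim) fun g => ?_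
  simp only [Finset.univ_eq_empty, Finset.sum_empty, add_zero, Finset.univ_unique,
    Finset.sum_const, Finset.card_singleton, one_smul]
  rw [tw_apply, Matrix.trace_smul, smul_eq_mul, cubRep_trace, hσ]
  push_cast
  ring

end Pool.Agent.Results.MP_21281f_nt.RestrictionsOfScalars
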