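import Pool.Agent.U213.EC.Gauss

/-!
# Deligne's period conjecture for twists of abelian varieties: twisted powers of CM elliptic curves

Let `A₀` be an elliptic curve over `ℚ` with complex multiplication, `L / k` a Galois extension of number
fields with group `Q`, and `ρ` a rational representation of `Q`. The restriction of scalars `A` from `k` to
`ℚ` of the abelian variety `A₀ ⊗ ρ` over `k` has dimension `d = [k : ℚ] dim ρ`, and `A = A₀ ⊗ σ` for the
representation `σ` of the absolute Galois group of `ℚ` induced from `ρ`. (Over `L'`, the Galois closure of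
`L`, it is isogenous to `A₀ ^ d`.) We prove (i) and (ii) of the problem for `A` and all even characters `ψ`
whose field is contained in `L`, if the order at `s = 1` of the L-function of `A₀` over `L` is at most
two.

The data `D : Data F` are a Weierstrass equation of `A₀` over `ℤ`, its period lattice, a nonzero real
period `Ω₊` and a nonzero purely imaginary period `Ω₋`, an embedding `ι` in `ℂ` of the number field `F`,
Galois over `ℚ`, complex conjugation `c` in `Gal(F/ℚ)`, an element `x` of `F` with nonzero resolvents
`R(λ) = ∑_g λ(g) ι(g x)`, a finite set `S` of prime numbers which contains the bad and the ramified ones, and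
arithmetic Frobenius elements at the other prime numbers. The field `k` is the fixed field of the
subgroup `H` of `Gal(F/ℚ)`, and `L` is the fixed field of the kernel of a surjective homomorphism `π` from
`H` to `Q`. The field `F` contains the root of unity `ζ = exp (2 π i / f)`, `χ` is a Dirichlet character
modulo `f` with values in the number field `E` (for example in the field of its values), `ψ` is the
corresponding character of `Gal(F/ℚ)`; it is even, and trivial on `Gal(F/L)`.

The conclusion: there is `e` in `E` such that for all embeddings `τ` of `E` in `ℂ`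
`τ*(τχ⁻¹) ^ d * L(A, τψ, 1) / Ω_A = τ(e)`, with the Gauss sum `τ*(λ) = ∑_a λ(a) exp (2 π i a / f)` and
Deligne's period `Ω_A = D.period σ = R(det σ) Ω₊ ^ d⁺ Ω₋ ^ d⁻` of `A`, a rational multiple of
`∫_{A(ℝ)} |ω|`. For the field `E = ℚ(ψ)` this is (i) and (ii). The L-functions are without the Euler
factors at the primes in `S`, which are nonzero elements of `E` at `s = 1`.

The hypotheses `MonomialTheorem` and `SymplecticParity` are published theorems: Deligne's conjecture for the
critical values of Hecke L-functions (Blasius, Harder, Kings–Sprang, Kufner), which is the case of the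
representations which are induced from linear characters of subgroups, and the fact that the order at
`s = 1` of the twist by a quaternion character is even (Hecke's functional equation; the root number is
`1` by Rohrlich). If no L-function in the denominator of Brauer's formula vanishes at `s = 1`, the result
follows from Brauer's induction theorem; for the zeros the classification of
`Pool.Agent.R389.main_two` is used.
-/

set_option autoImplicit false

open Pool.Agent.U213.EC Filter Topology

namespace Pool.Agent.Results.MP_21281f_nt.TwistedPowersOfCMCurves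

theorem result (monomial : MonomialTheorem) (parity : SymplecticParity)
    (F : Type) [Field F] [NumberField F] [IsGalois ℚ F] (D : Data F) (cm : D.CM)
    -- the extension `L / k` with group `Q`
    (H : Subgroup (F ≃ₐ[ℚ] F)) (Q : Type) [Group Q] [Finite Q] (π : H →* Q)
    (hπ : Function.Surjective π)
    -- the L-function of `A₀` over `L` has order at most two at `s = 1`
    (ℓ₀ : ℂ → ℂ) (hℓ₀ : D.IsL (Pool.Agent.R389.ind (π.ker.map H.subtype) (fun _ => 1)) ℓ₀)
    (two : meromorphicOrderAt ℓ₀ 1 ≤ 2)
    -- a rational representation `ρ` of `Q`, and the representation `σ` induced from `ρ ∘ π`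
    (n : ℕ) (ρ : Q →* Matrix (Fin n) (Fin n) ℚ)
    (d : ℕ) (σ : (F ≃ₐ[ℚ] F) →* Matrix (Fin d) (Fin d) ℚ)
    (hσ : ∀ g, (σ g).trace = Pool.Agent.R389.ind H (fun h => (ρ (π h)).trace) g)
    -- a Dirichlet character `χ` modulo `f` with values in `E`, and the Galois character `ψ`
    (f : ℕ) (hf : f ≠ 0) (ζ : F) (hζ : D.ι ζ = Complex.exp (2 * Real.pi * Complex.I / f))
    (E : Type) [Field E] [NumberField E] (χ : (ZMod f)ˣ →* Eˣ) (ψ : (F ≃ₐ[ℚ] F) →* Eˣ)
    (hψ : ∀ (g : F ≃ₐ[ℚ] F) (u : (ZMod f)ˣ), g ζ = ζ ^ (u : ZMod f).val → ψ g = χ u)
    -- `ψ` is even, and trivial on `Gal(F/L)`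
    (even : ψ D.c = 1) (ψQ : Q →* Eˣ) (hψQ : ∀ h : H, ψ h = ψQ (π h)) :
    ∃ e : E, ∀ τ : E →+* ℂ, ∃ ℓ : ℂ → ℂ,
      D.IsL (fun g => τ ((ψ g : Eˣ) : E) * (((σ g).trace : ℚ) : ℂ)) ℓ ∧
      Tendsto (fun s => gaussSum' f (fun a => τ (((χ a)⁻¹ : Eˣ) : E)) ^ d * ℓ s /
        D.period ((algebraMap ℚ ℂ).mapMatrix.toMonoidHom.comp σ)) (𝓝[≠] 1) (𝓝 (τ e)) :=
  D.twisted'' monomial parity cm H π hπ hℓ₀ two n ρ d σ hσ hf hζ E χ ψ hψ ψQ hψQ even

end Pool.Agent.Results.MP_21281f_nt.TwistedPowersOfCMCurves
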