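import Mathlib
import Pool.Agent.U157.EC.TwN

/-!
# Deligne's period conjecture for twists of abelian varieties: twisted powers of CM elliptic curves, nonsolvable
extensions

Let `A₀` be an elliptic curve over `ℚ` with complex multiplication, `L / k` a Galois extension of number
fields with group `Q`, and `ρ` a rational representation of `Q`. The restriction of scalars `A` from `k` to
`ℚ` of the abelian variety `A₀ ⊗ ρ` over `k` has dimension `d = [k : ℚ] dim ρ`, and `A = A₀ ⊗ σ` for the
representation `σ` of the absolute Galois group of `ℚ` induced from `ρ`. We prove (i) and (ii) of the problem for `A`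
and the even characters `ψ` whose field is contained in `L`. The group `Q` need not be solvable, and the only
assumption on the zeros is that the order of `L(A₀ / L, s)` at `s = 1` is at most `r`; nothing is assumed on the L-functions
over `k`.

`Pool.Agent.N855.AF.Factors r N` says that every nonabelian composition factor `S` of the finite group `N` (every
nonabelian simple quotient of a subnormal subgroup of `N`, `SubQ N S`) satisfies `Pool.Agent.N855.AF.Allow r S`: it
is isomorphic to `A_m` with `r < (2 ^ j - 1) ⌊m / 2 ^ j⌋` for some `j ≥ 3`; or every virtual character of degree at most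
`r` of a perfect group with central quotient `S` which has a nonnegative integral multiplicity against every
linear character of every subgroup is constant, and (if `r ≥ 4`) `S` is not a quotient of an irreducible group
of isometries of a nondegenerate alternating form on a space of order `p ^ (2 n)`, `p ^ n ≤ r`.
`Pool.Agent.R389.AN G`: the group `G` has an abelian normal subgroup with nilpotent quotient.

**Theorem.** (A) Let `N` be a perfect normal subgroup of `Q` with `Factors r N`. For every rational representation `ρ`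
of `Q` without nonzero vectors fixed by `N` and for all even `ψ` whose field is in `L`, (i) and (ii) hold for `A` and
`ψ`, and `L(A, ψ, 1) ≠ 0`. They hold for all `ρ` and `ψ` if `Q / N` has an abelian normal subgroup with nilpotent
quotient, or if `Q / N` is solvable and for some linear character `λ` of `Q / N` the order of `L(A₀ / L, s)` is less than
the order of `L(A₀ / k, λ, s)` plus `p`, for all prime divisors `p` of the order of `Q / N`.
(B) Let `L` be the composite of an extension of `k` with group `A_n` or `S_n`, `n ≥ 5`, and an abelian extension of `k` (so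
`Q` is a subgroup of the product of the symmetric group and an abelian group `B`), and let
`r < (2 ^ j - 1) ⌊n / 2 ^ j⌋` for some `j ≥ 2`. Then (i) and (ii) hold for all `ρ` and `ψ`; and
`L(A, ψ, 1) ≠ 0` for all `ψ` if `ρ` has no nonzero vectors fixed by the commutator group of `Q` (isomorphic to `A_n`).

(In (A) one can take for `N` the last term of the derived series of `Q`.)

In `TwistedPowersOfCMCurves` the order of `L(A₀ / L, s)` at `s = 1` is at most two, in
`TwistsZerosOfAnyOrder` the special characters (with a zero at `s = 1`) are given, or have small degree. Here they are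
determined by rigidity (`Pool.Agent.Y788`, `Pool.Agent.N855`, proved there for Artin L-functions): the function of the orders
is a virtual character of degree at most `r` with nonnegative multiplicities at all monomial characters; such
a function is constant on `N`. The data `D : Data F` are as in these files: a
Weierstrass equation of `A₀` over `ℤ`, its period lattice, a nonzero real
period `Ω₊` and a nonzero purely imaginary period `Ω₋`, an embedding `ι` in `ℂ` of the number field `F`,
Galois over `ℚ`, complex conjugation `c` in `Gal(F/ℚ)`, an element `x` of `F` with nonzero resolvents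
`R(λ) = ∑_g λ(g) ι(g x)`, a finite set `S` of prime numbers which contains the bad and the ramified ones, and
arithmetic Frobenius elements at the other prime numbers. The field `k` is the fixed field of the
subgroup `H` of `Gal(F/ℚ)`, and `L` is the fixed field of the kernel of a surjective homomorphism `π` from
`H` to `Q`. Deligne's period of `A` is `D.period σ = R(det σ) Ω₊ ^ d⁺ Ω₋ ^ d⁻`, a rational multiple of
`∫_{A(ℝ)} |ω|`. The L-functions are without the Euler factors at the primes in `S`, which are nonzero elements of the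
coefficient field at `s = 1`.

The hypothesis `MonomialTheorem` is a published theorem, Deligne's conjecture for the critical values of Hecke
L-functions (Blasius, Harder, Kings–Sprang, Kufner), which is the case of the
representations which are induced from linear characters of subgroups.
-/

set_option autoImplicit false

open Pool.Agent.U213.EC Pool.Agent.R389 Pool.Agent.H541R3.ART Filter Topology

namespace Pool.Agent.Results.MP_21281f_nt.TwistsNonsolvable

section

variable {F : Type} [Field F] [NumberField F] [IsGalois ℚ F] (D : Data F)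
  (H : Subgroup (F ≃ₐ[ℚ] F)) {Q : Type} [Group Q] (π : H →* Q)

/-- An even character: a Dirichlet character `χ` modulo `f` with values in `E`, where the root of unity
`exp (2 π i / f)` is the image of the element `ζ` of `F`; the corresponding character `ψ` of `Gal(F/ℚ)`, which is
trivial at complex conjugation and trivial on `Gal(F/L)`; and the character `ψQ` of `Q` given by the restriction
of `ψ` to `H`. -/
structure EvenCharacter (E : Type) [Field E] where
  f : ℕ
  f_ne : f ≠ 0
  ζ : F
  ζ_eq : D.ι ζ = Complex.exp (2 * Real.pi * Complex.I / f)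
  χ : (ZMod f)ˣ →* Eˣ
  ψ : (F ≃ₐ[ℚ] F) →* Eˣ
  compatible : ∀ (g : F ≃ₐ[ℚ] F) (u : (ZMod f)ˣ), g ζ = ζ ^ (u : ZMod f).val → ψ g = χ u
  even : ψ D.c = 1
  ψQ : Q →* Eˣ
  restriction : ∀ h : H, ψ h = ψQ (π h)

/-- `ℓ` is the L-function `L(A, τψ, s)` of the abelian variety `A = A₀ ⊗ σ` (without the factors at `S`). -/
def IsTwistedL {E : Type} [Field E] (Ψ : EvenCharacter D H π E) {d : ℕ}
    (σ : (F ≃ₐ[ℚ] F) →* Matrix (Fin d) (Fin d) ℚ) (τ : E →+* ℂ) (ℓ : ℂ → ℂ) : Prop :=
  D.IsL (fun g => τ ((Ψ.ψ g : Eˣ) : E) * (((σ g).trace : ℚ) : ℂ)) ℓ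

/-- (i) and (ii) of the problem for the abelian variety `A = A₀ ⊗ σ` of dimension `d` and the character `ψ`: there is
`e` in `E` with `τ*(τχ⁻¹) ^ d * L(A, τψ, 1) / Ω_A = τ(e)` for all embeddings `τ` of `E` in `ℂ`. -/
def PeriodConjecture {E : Type} [Field E] (Ψ : EvenCharacter D H π E) {d : ℕ}
    (σ : (F ≃ₐ[ℚ] F) →* Matrix (Fin d) (Fin d) ℚ) : Prop :=
  ∃ e : E, ∀ τ : E →+* ℂ, ∃ ℓ : ℂ → ℂ, IsTwistedL D H π Ψ σ τ ℓ ∧
    Tendsto (fun s => gaussSum' Ψ.f (fun a => τ (((Ψ.χ a)⁻¹ : Eˣ) : E)) ^ d * ℓ s /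
      D.period ((algebraMap ℚ ℂ).mapMatrix.toMonoidHom.comp σ)) (𝓝[≠] 1) (𝓝 (τ e))

/-- `σ` is the representation of `Gal(F/ℚ)` induced from `ρ ∘ π` (it has the induced character). -/
def Induced {n d : ℕ} (ρ : Q →* Matrix (Fin n) (Fin n) ℚ)
    (σ : (F ≃ₐ[ℚ] F) →* Matrix (Fin d) (Fin d) ℚ) : Prop :=
  ∀ g, (σ g).trace = ind H (fun h => (ρ (π h)).trace) g

/-- (i) and (ii) for all abelian varieties `A = A₀ ⊗ σ` given by rational representations `ρ` of `Q`, and all even
characters whose field is contained in `L`. -/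
def Holds : Prop :=
  ∀ (n : ℕ) (ρ : Q →* Matrix (Fin n) (Fin n) ℚ) (d : ℕ)
    (σ : (F ≃ₐ[ℚ] F) →* Matrix (Fin d) (Fin d) ℚ), Induced H π ρ σ →
    ∀ (E : Type) [Field E] [NumberField E] (Ψ : EvenCharacter D H π E), PeriodConjecture D H π Ψ σ

/-- (i), (ii) and `L(A, τψ, 1) ≠ 0` for all even characters and all `A = A₀ ⊗ σ` given by rational
representations `ρ` of `Q` which have no nonzero vector fixed by `N`. -/
def HoldsNonzero (N : Subgroup Q) : Prop :=
  ∀ (n : ℕ) (ρ : Q →* Matrix (Fin n) (Fin n) ℚ),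
    (∀ v : Fin n → ℚ, (∀ k ∈ N, (ρ k).mulVec v = v) → v = 0) →
    ∀ (d : ℕ) (σ : (F ≃ₐ[ℚ] F) →* Matrix (Fin d) (Fin d) ℚ), Induced H π ρ σ →
    ∀ (E : Type) [Field E] [NumberField E] (Ψ : EvenCharacter D H π E),
      PeriodConjecture D H π Ψ σ ∧ ∀ (τ : E →+* ℂ) (ℓ : ℂ → ℂ), IsTwistedL D H π Ψ σ τ ℓ →
        meromorphicOrderAt ℓ 1 = 0

/-- `Q / N` is solvable, and for a linear character `λ` of `Q / N` the order at `s = 1` of the function `ℓ` is less
than the order of `L(A₀ / k, λ, s)` plus `p` for all prime divisors `p` of the order of `Q / N`. -/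
def SmallGrowth (ℓ : ℂ → ℂ) (N : Subgroup Q) [N.Normal] : Prop :=
  Group.IsSolvable (Q ⧸ N) ∧ ∃ (lam : (Q ⧸ N) →* ℂˣ) (ℓ₁ : ℂ → ℂ),
    D.IsL (ind H (fun h => ((lam (QuotientGroup.mk (π h)) : ℂˣ) : ℂ))) ℓ₁ ∧
    ∀ p : ℕ, p.Prime → p ∣ Nat.card (Q ⧸ N) →
      meromorphicOrderAt ℓ 1 < meromorphicOrderAt ℓ₁ 1 + p

end

end Pool.Agent.Results.MP_21281f_nt.TwistsNonsolvable

open Pool.Agent.Results.MP_21281f_nt.TwistsNonsolvable

/-- **Twisted powers of CM elliptic curves and their twists by even characters, nonsolvable extensions.** -/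
theorem Pool.Agent.Results.MP_21281f_nt.TwistsNonsolvable.result (monomial : MonomialTheorem)
    (F : Type) [Field F] [NumberField F] [IsGalois ℚ F] (D : Data F) (cm : D.CM)
    -- the extension `L / k` with group `Q`
    (H : Subgroup (F ≃ₐ[ℚ] F)) (Q : Type) [Group Q] [Finite Q] (π : H →* Q) (hπ : Function.Surjective π)
    -- the L-function of `A₀` over `L` has order at most `r` at `s = 1`
    (ℓ : ℂ → ℂ) (hℓ : D.IsL (ind (π.ker.map H.subtype) (fun _ => 1)) ℓ) (r : ℕ)
    (order : meromorphicOrderAt ℓ 1 ≤ r) :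
    (∀ (N : Subgroup Q) [N.Normal], Group.IsPerfect N → Pool.Agent.N855.AF.Factors r N →
      HoldsNonzero D H π N ∧ (AN (Q ⧸ N) ∨ SmallGrowth D H π ℓ N → Holds D H π)) ∧
    (∀ (n j : ℕ) (f : Q →* Equiv.Perm (Fin n)) (B : Type) [CommGroup B] (g : Q →* B), 5 ≤ n → 2 ≤ j →
      r < (2 ^ j - 1) * (n / 2 ^ j) → (∀ x, f x = 1 → g x = 1 → x = 1) →
      alternatingGroup (Fin n) ≤ f.range →
      Holds D H π ∧ HoldsNonzero D H π (commutator Q)) := by
  have new : ∀ (N : Subgroup Q) [N.Normal], Pool.Agent.U157.EC.Const D H π N →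
      (∀ (A : Type) [CommGroup A] (f : Q →* A), ∀ k ∈ N, f k = 1) → HoldsNonzero D H π N := by
    intro N _ hK hN n ρ hρ d σ hσ E _ _ Ψ
    have h2 := Pool.Agent.U157.EC.ec_new monomial cm hπ N hK E n (tw ρ Ψ.ψQ)
      (Pool.Agent.U157.EC.no_fixed ρ hρ Ψ.ψQ (hN Eˣ Ψ.ψQ)) d (tw σ Ψ.ψ)
      (Pool.Agent.U157.EC.tw_ind D H π n ρ d σ hσ E Ψ.ψ Ψ.ψQ Ψ.restriction)
    refine ⟨Pool.Agent.U157.EC.gauss_of D d σ Ψ.f_ne Ψ.ζ_eq E Ψ.χ Ψ.ψ Ψ.compatible Ψ.even h2.1,
      fun τ ℓ hℓ => h2.2 τ ℓ ?_⟩
    have h4 : (fun g => τ (tw σ Ψ.ψ g).trace)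
        = fun g => τ ((Ψ.ψ g : Eˣ) : E) * (((σ g).trace : ℚ) : ℂ) := by
      funext g
      rw [tw_trace, map_mul]
      congr 1
      simp
    rw [h4]
    exact hℓ
  refine ⟨fun N _ hp hN => ?_, fun n j f B _ g hn hj hlt hf hA => ?_⟩
  · have hK := Pool.Agent.U157.EC.const_of_rigid hπ hℓ order N
      (Pool.Agent.N855.AF.rigid_of_factors hp hN)
    refine ⟨new N hK fun A _ f => Pool.Agent.U157.EC.perfect_one hp f,
      fun hQ n ρ d σ hσ E _ _ Ψ => ?_⟩
    refine Pool.Agent.U157.EC.gauss_of D d σ Ψ.f_ne Ψ.ζ_eq E Ψ.χ Ψ.ψ Ψ.compatible Ψ.even ?_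
    refine Pool.Agent.U157.EC.ec_all monomial cm hπ (fun E _ _ ζ hζ l P A => ?_) E n (tw ρ Ψ.ψQ) d
      (tw σ Ψ.ψ) (Pool.Agent.U157.EC.tw_ind D H π n ρ d σ hσ E Ψ.ψ Ψ.ψQ Ψ.restriction)
    rcases hQ with hQ | ⟨hs, lam, ℓ₁, hℓ₁, hz⟩
    · exact ⟨N, inferInstance, hQ, hK E ζ hζ l P A⟩
    · exact Pool.Agent.U157.EC.small_up hπ hK hℓ hs lam hℓ₁ hz E ζ hζ l P A
  · obtain ⟨h2, h3⟩ := Pool.Agent.U157.EC.prod_setup hn hj hlt f g hf hA
    have hK := Pool.Agent.U157.EC.const_of_rigid hπ hℓ order _ h2
    refine ⟨fun n ρ d σ hσ E _ _ Ψ => ?_, new _ hK fun A _ f k hk =>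
      Abelianization.commutator_subset_ker f hk⟩
    refine Pool.Agent.U157.EC.gauss_of D d σ Ψ.f_ne Ψ.ζ_eq E Ψ.χ Ψ.ψ Ψ.compatible Ψ.even ?_
    exact Pool.Agent.U157.EC.ec_all monomial cm hπ
      (fun E _ _ ζ hζ l P A => ⟨_, inferInstance, h3, hK E ζ hζ l P A⟩) E n (tw ρ Ψ.ψQ) d
      (tw σ Ψ.ψ) (Pool.Agent.U157.EC.tw_ind D H π n ρ d σ hσ E Ψ.ψ Ψ.ψQ Ψ.restriction)
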