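import Mathlib
import Pool.Agent.U157.EC.Tw

/-!
# Deligne's period conjecture for twists of abelian varieties: twisted powers of CM elliptic curves, zeros of any
order

Let `A₀` be an elliptic curve over `ℚ` with complex multiplication, `L / k` a Galois extension of number
fields with group `Q`, and `ρ` a rational representation of `Q`. The restriction of scalars `A` from `k` to
`ℚ` of the abelian variety `A₀ ⊗ ρ` over `k` has dimension `d = [k : ℚ] dim ρ`, and `A = A₀ ⊗ σ` for the
representation `σ` of the absolute Galois group of `ℚ` induced from `ρ`. We prove (i) and (ii) of the problem for `A`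
and the even characters `ψ` whose field is contained in `L`, without any condition on the orders of the zeros at `s = 1`.
The group `Q` need not be solvable. Only the set of the *special* characters matters, the irreducible characters `η`
of `Q` for which `L(A₀ / k, η, s)` has a zero at `s = 1`.

`Pool.Agent.R389.AN G`: the group `G` has an abelian normal subgroup with nilpotent quotient.

**Theorem.** (A) Let `K` be a normal subgroup of `Q` on which all special characters are trivial. If `ρ ⊗ ψ` has no nonzero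
vectors fixed by `K`, then (i) and (ii) hold for `A` and `ψ`, and `L(A, ψ, 1) ≠ 0`. They hold for all `ρ` and `ψ` if `Q / K`
has an abelian normal subgroup with nilpotent quotient, or if `Q / K` is solvable and the order of the zero grows
little in `L / k`: for some linear character `λ` of `Q / K` the order of `L(A₀ / L, s)` is less than the order of
`L(A₀ / k, λ, s)` plus `p`, for all prime divisors `p` of the order of `Q / K`.
(B) If every special character has a small image (it is trivial on a normal subgroup `K` such that `Q / K` has an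
abelian normal subgroup with nilpotent quotient, or it is induced from a linear character of a normal
subgroup with nilpotent quotient), then (i) and (ii) hold for all `ρ` and `ψ`.
(C) Let `L` be the composite of an extension of `k` with group `A_n` or `S_n`, `n ≥ 5`, and an abelian extension of `k` (so
`Q` is a subgroup of the product of the symmetric group and an abelian group `B`), and let all special characters
have degree at most `r < (2 ^ j - 1) ⌊n / 2 ^ j⌋` for some `j ≥ 2`. Then (i) and (ii) hold for all `ρ` and `ψ`, and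
`L(A, ψ, 1) ≠ 0` if `ρ` has no nonzero vectors fixed by the commutator group of `Q` (isomorphic to `A_n`).

The data `D : Data F` are as in `TwistedPowersOfCMCurves`, where the order of `L(A₀ / L, s)` at `s = 1` is at most two: a
Weierstrass equation of `A₀` over `ℤ`, its period lattice, a nonzero real
period `Ω₊` and a nonzero purely imaginary period `Ω₋`, an embedding `ι` in `ℂ` of the number field `F`,
Galois over `ℚ`, complex conjugation `c` in `Gal(F/ℚ)`, an element `x` of `F` with nonzero resolvents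
`R(λ) = ∑_g λ(g) ι(g x)`, a finite set `S` of prime numbers which contains the bad and the ramified ones, and
arithmetic Frobenius elements at the other prime numbers. The field `k` is the fixed field of the
subgroup `H` of `Gal(F/ℚ)`, and `L` is the fixed field of the kernel of a surjective homomorphism `π` from
`H` to `Q`. Deligne's period of `A` is `D.period σ = R(det σ) Ω₊ ^ d⁺ Ω₋ ^ d⁻`, a rational multiple of
`∫_{A(ℝ)} |ω|`. The L-functions are without the Euler factors at the primes in `S`, which are nonzero elements of the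
coefficient field at `s = 1`.

The hypothesis `MonomialTheorem` is a published theorem, Deligne's conjecture for the critical values of Hecke
L-functions (Blasius, Harder, Kings–Sprang, Kufner), which is the case of the
representations which are induced from linear characters of subgroups.
-/

set_option autoImplicit false

open Pool.Agent.U213.EC Pool.Agent.R389 Pool.Agent.H541R3.ART Filter Topology

namespace Pool.Agent.Results.MP_21281f_nt.TwistsZerosOfAnyOrder

section

variable {F : Type} [Field F] [NumberField F] [IsGalois ℚ F] (D : Data F)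
  (H : Subgroup (F ≃ₐ[ℚ] F)) {Q : Type} [Group Q] (π : H →* Q)

/-- An even character: a Dirichlet character `χ` modulo `f` with values in `E`, where the root of unity
`exp (2 π i / f)` is the image of the element `ζ` of `F`; the corresponding character `ψ` of `Gal(F/ℚ)`, which is
trivial at complex conjugation and trivial on `Gal(F/L)`; and the character `ψQ` of `Q` given by the restriction
of `ψ` to `H`. -/
structure EvenCharacter (E : Type) [Field E] where
  f : ℕ
  f_ne : f ≠ 0
  ζ : F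
  ζ_eq : D.ι ζ = Complex.exp (2 * Real.pi * Complex.I / f)
  χ : (ZMod f)ˣ →* Eˣ
  ψ : (F ≃ₐ[ℚ] F) →* Eˣ
  compatible : ∀ (g : F ≃ₐ[ℚ] F) (u : (ZMod f)ˣ), g ζ = ζ ^ (u : ZMod f).val → ψ g = χ u
  even : ψ D.c = 1
  ψQ : Q →* Eˣ
  restriction : ∀ h : H, ψ h = ψQ (π h)

/-- `ℓ` is the L-function `L(A, τψ, s)` of the abelian variety `A = A₀ ⊗ σ` (without the factors at `S`). -/
def IsTwistedL {E : Type} [Field E] (Ψ : EvenCharacter D H π E) {d : ℕ}
    (σ : (F ≃ₐ[ℚ] F) →* Matrix (Fin d) (Fin d) ℚ) (τ : E →+* ℂ) (ℓ : ℂ → ℂ) : Prop :=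
  D.IsL (fun g => τ ((Ψ.ψ g : Eˣ) : E) * (((σ g).trace : ℚ) : ℂ)) ℓ

/-- (i) and (ii) of the problem for the abelian variety `A = A₀ ⊗ σ` of dimension `d` and the character `ψ`: there is
`e` in `E` with `τ*(τχ⁻¹) ^ d * L(A, τψ, 1) / Ω_A = τ(e)` for all embeddings `τ` of `E` in `ℂ`. -/
def PeriodConjecture {E : Type} [Field E] (Ψ : EvenCharacter D H π E) {d : ℕ}
    (σ : (F ≃ₐ[ℚ] F) →* Matrix (Fin d) (Fin d) ℚ) : Prop :=
  ∃ e : E, ∀ τ : E →+* ℂ, ∃ ℓ : ℂ → ℂ, IsTwistedL D H π Ψ σ τ ℓ ∧
    Tendsto (fun s => gaussSum' Ψ.f (fun a => τ (((Ψ.χ a)⁻¹ : Eˣ) : E)) ^ d * ℓ s /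
      D.period ((algebraMap ℚ ℂ).mapMatrix.toMonoidHom.comp σ)) (𝓝[≠] 1) (𝓝 (τ e))

/-- `σ` is the representation of `Gal(F/ℚ)` induced from `ρ ∘ π` (it has the induced character). -/
def Induced {n d : ℕ} (ρ : Q →* Matrix (Fin n) (Fin n) ℚ)
    (σ : (F ≃ₐ[ℚ] F) →* Matrix (Fin d) (Fin d) ℚ) : Prop :=
  ∀ g, (σ g).trace = ind H (fun h => (ρ (π h)).trace) g

/-- (i) and (ii) for all abelian varieties `A = A₀ ⊗ σ` given by rational representations `ρ` of `Q`, and all even
characters whose field is contained in `L`. -/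
def Holds : Prop :=
  ∀ (n : ℕ) (ρ : Q →* Matrix (Fin n) (Fin n) ℚ) (d : ℕ)
    (σ : (F ≃ₐ[ℚ] F) →* Matrix (Fin d) (Fin d) ℚ), Induced H π ρ σ →
    ∀ (E : Type) [Field E] [NumberField E] (Ψ : EvenCharacter D H π E), PeriodConjecture D H π Ψ σ

/-- (i), (ii) and `L(A, τψ, 1) ≠ 0` for all `A = A₀ ⊗ σ` and even characters such that `ρ ⊗ ψ` has no nonzero vector
fixed by `K`. -/
def HoldsNonzero (K : Subgroup Q) : Prop :=
  ∀ (n : ℕ) (ρ : Q →* Matrix (Fin n) (Fin n) ℚ) (d : ℕ)
    (σ : (F ≃ₐ[ℚ] F) →* Matrix (Fin d) (Fin d) ℚ), Induced H π ρ σ →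
    ∀ (E : Type) [Field E] [NumberField E] (Ψ : EvenCharacter D H π E),
      (∀ v : Fin n → E, (∀ k ∈ K,
        ((Ψ.ψQ k : Eˣ) : E) • ((ρ k).map (algebraMap ℚ E)).mulVec v = v) → v = 0) →
      PeriodConjecture D H π Ψ σ ∧ ∀ (τ : E →+* ℂ) (ℓ : ℂ → ℂ), IsTwistedL D H π Ψ σ τ ℓ →
        meromorphicOrderAt ℓ 1 = 0

/-- `Q / K` is solvable, and for a linear character `λ` of `Q / K` the order at `s = 1` of `L(A₀ / L, s)` is less
than the order of `L(A₀ / k, λ, s)` plus `p` for all prime divisors `p` of the order of `Q / K`. -/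
def SmallGrowth (K : Subgroup Q) [K.Normal] : Prop :=
  Group.IsSolvable (Q ⧸ K) ∧ ∃ (ℓ : ℂ → ℂ) (lam : (Q ⧸ K) →* ℂˣ) (ℓ₁ : ℂ → ℂ),
    D.IsL (ind (π.ker.map H.subtype) (fun _ => 1)) ℓ ∧
    D.IsL (ind H (fun h => ((lam (QuotientGroup.mk (π h)) : ℂˣ) : ℂ))) ℓ₁ ∧
    ∀ p : ℕ, p.Prime → p ∣ Nat.card (Q ⧸ K) →
      meromorphicOrderAt ℓ 1 < meromorphicOrderAt ℓ₁ 1 + p

/-- `η` is irreducible and `L(A₀ / k, η, s)` has a zero (or a pole) at `s = 1`. -/
def Special (η : Q → ℂ) : Prop :=
  η ∈ Irr Q ∧ ∃ ℓ : ℂ → ℂ, D.IsL (ind H (fun h => η (π h))) ℓ ∧ meromorphicOrderAt ℓ 1 ≠ 0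

end

/-- The image of the irreducible character `η` has an abelian normal subgroup with nilpotent quotient: `η` is trivial
on a normal subgroup `K` such that `G / K` has this property; or `η` is induced from a linear character of a normal
subgroup `U` with nilpotent quotient `G / U`. -/
def SmallImage {G : Type} [Group G] (η : G → ℂ) : Prop :=
  (∃ (K : Subgroup G) (_ : K.Normal), (∀ k ∈ K, η k = η 1) ∧ AN (G ⧸ K)) ∨
  (∃ (U : Subgroup G) (_ : U.Normal) (lam : U →* ℂˣ), Group.IsNilpotent (G ⧸ U) ∧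
    η = ind U (fun h => ((lam h : ℂˣ) : ℂ)))

end Pool.Agent.Results.MP_21281f_nt.TwistsZerosOfAnyOrder

open Pool.Agent.Results.MP_21281f_nt.TwistsZerosOfAnyOrder

/-- **Twisted powers of CM elliptic curves and their twists by even characters, zeros of any order.** -/
theorem Pool.Agent.Results.MP_21281f_nt.TwistsZerosOfAnyOrder.result (monomial : MonomialTheorem)
    (F : Type) [Field F] [NumberField F] [IsGalois ℚ F] (D : Data F) (cm : D.CM)
    -- the extension `L / k` with group `Q`
    (H : Subgroup (F ≃ₐ[ℚ] F)) (Q : Type) [Group Q] [Finite Q] (π : H →* Q) (hπ : Function.Surjective π) :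
    (∀ (K : Subgroup Q) [K.Normal], (∀ η, Special D H π η → ∀ k ∈ K, η k = η 1) →
      HoldsNonzero D H π K ∧ (AN (Q ⧸ K) ∨ SmallGrowth D H π K → Holds D H π)) ∧
    ((∀ η, Special D H π η → SmallImage η) → Holds D H π) ∧
    (∀ (r n j : ℕ) (f : Q →* Equiv.Perm (Fin n)) (B : Type) [CommGroup B] (g : Q →* B), 5 ≤ n → 2 ≤ j →
      r < (2 ^ j - 1) * (n / 2 ^ j) → (∀ x, f x = 1 → g x = 1 → x = 1) →
      alternatingGroup (Fin n) ≤ f.range →
      (∀ η, Special D H π η → ∃ d : ℕ, d ≤ r ∧ η 1 = d) →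
      Holds D H π ∧ HoldsNonzero D H π (commutator Q)) := by
  have hA : ∀ (K : Subgroup Q) [K.Normal], (∀ η, Special D H π η → ∀ k ∈ K, η k = η 1) →
      HoldsNonzero D H π K ∧ (AN (Q ⧸ K) ∨ SmallGrowth D H π K → Holds D H π) := by
    intro K _ hK
    have h1 : Pool.Agent.U157.EC.Const D H π K :=
      Pool.Agent.U157.EC.const_of_special (fun χ hχ h0 => hK χ ⟨hχ, h0⟩)
    refine ⟨fun n ρ d σ hσ E _ _ Ψ hρ => ?_, fun hQ n ρ d σ hσ E _ _ Ψ => ?_⟩
    · have h2 := Pool.Agent.U157.EC.ec_new monomial cm hπ K h1 E n (tw ρ Ψ.ψQ) (fun v hv => by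
        refine hρ v fun k hk => ?_
        have h3 := hv k hk
        change (((Ψ.ψQ k : Eˣ) : E) • (ρ k).map (algebraMap ℚ E)).mulVec v = v at h3
        rwa [Matrix.smul_mulVec] at h3) d (tw σ Ψ.ψ)
        (Pool.Agent.U157.EC.tw_ind D H π n ρ d σ hσ E Ψ.ψ Ψ.ψQ Ψ.restriction)
      refine ⟨Pool.Agent.U157.EC.gauss_of D d σ Ψ.f_ne Ψ.ζ_eq E Ψ.χ Ψ.ψ Ψ.compatible Ψ.even h2.1,
        fun τ ℓ hℓ => h2.2 τ ℓ ?_⟩
      have h4 : (fun g => τ (tw σ Ψ.ψ g).trace)
          = fun g => τ ((Ψ.ψ g : Eˣ) : E) * (((σ g).trace : ℚ) : ℂ) := by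
        funext g
        rw [tw_trace, map_mul]
        congr 1
        simp
      rw [h4]
      exact hℓ
    · refine Pool.Agent.U157.EC.gauss_of D d σ Ψ.f_ne Ψ.ζ_eq E Ψ.χ Ψ.ψ Ψ.compatible Ψ.even ?_
      refine Pool.Agent.U157.EC.ec_all monomial cm hπ (fun E _ _ ζ hζ l P A => ?_) E n (tw ρ Ψ.ψQ) d
        (tw σ Ψ.ψ) (Pool.Agent.U157.EC.tw_ind D H π n ρ d σ hσ E Ψ.ψ Ψ.ψQ Ψ.restriction)
      rcases hQ with hQ | ⟨hs, ℓ, lam, ℓ₁, hℓ, hℓ₁, hz⟩
      · exact ⟨K, inferInstance, hQ, h1 E ζ hζ l P A⟩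
      · exact Pool.Agent.U157.EC.small_up hπ h1 hℓ hs lam hℓ₁ hz E ζ hζ l P A
  refine ⟨hA, fun hs => ?_, fun r n j f B _ g hn hj hlt hf hA' hr => ?_⟩
  · obtain ⟨K, hKn, hK, hKa⟩ := Pool.Agent.U157.DL.exists_kernel
      (Z := fun χ => Special D H π χ) (fun χ hχ h0 => by
        rcases hs χ h0 with ⟨K, hKn, h1, h2⟩ | ⟨H, hHn, lam, h1, h2⟩
        · exact ⟨K, hKn, h1, h2⟩
        · refine ⟨⁅H, H⁆, inferInstance, fun k hk => ?_, Pool.Agent.U157.DL.an_comm H h1⟩
          rw [h2]
          exact Pool.Agent.U157.DL.ind_comm H lam hk)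
    exact (hA K (fun χ hχ => hK χ hχ.1 hχ)).2 (Or.inl hKa)
  · obtain ⟨h2, h3⟩ := Pool.Agent.U157.EC.prod_setup hn hj hlt f g hf hA'
    have h4 := hA _ (fun χ hχ => by
      obtain ⟨d, hd, hd1⟩ := hr χ hχ
      exact Pool.Agent.U157.DL.small_trivial _ h2 hχ.1 hd1 hd)
    exact ⟨h4.2 (Or.inl h3), h4.1⟩
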